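import Pool.Agent.H.MP_1f7bca_co.B

set_option autoImplicit false

namespace Pool.Agent.CycId

open Matroid Set MvPolynomial

noncomputable def eqv : Fin 16 ≃ {D : Finset (Fin 14) // IsCyc M0 D} :=
  Equiv.ofBijective (fun x => ⟨Dx x, (cyc _).2 ⟨x, rfl⟩⟩) ⟨fun x y h => by
    have h1 : Dx x = Dx y := congrArg Subtype.val h
    by_cases hx : x = 0
    · by_contra h2
      exact h2 ((d3.2 y x fun hy => h2 (hx.trans hy.symm)).1 h1.symm.subset).symm
    · exact (d3.2 x y hx).1 h1.subset, fun D => by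
      obtain ⟨x, hx⟩ := (cyc _).1 D.2
      exact ⟨x, Subtype.ext hx.symm⟩⟩

noncomputable def ex (x : Fin 16) : Option (Fin 14) →₀ ℕ :=
  Finsupp.single none 1 + ∑ e ∈ Dx x, Finsupp.single (some e) 1

noncomputable def AA (m : {D : Finset (Fin 14) // IsCyc M0 D} →₀ ℕ) : Option (Fin 14) →₀ ℕ :=
  ∑ x, m (eqv x) • ex x

lemma AA_none (m) : AA m none = ∑ x, m (eqv x) := by
  simp [AA, ex, Finsupp.finsetSum_apply]

lemma AA_some (m) (e) : AA m (some e) = ∑ x, if e ∈ Dx x then m (eqv x) else 0 := by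
  simp [AA, ex, Finsupp.finsetSum_apply, Finsupp.single_apply]

lemma psi (K : Type) [Field K] (m) (c : K) :
    aeval (fun D : {D : Finset (Fin 14) // IsCyc M0 D} =>
      (X none * ∏ e ∈ D.1, X (some e) : MvPolynomial (Option (Fin 14)) K)) (monomial m c) =
      monomial (AA m) c := by
  have := Fintype.ofEquiv _ eqv
  rw [aeval_monomial, Finsupp.prod_fintype _ _ fun _ => pow_zero _, ← eqv.prod_comp, AA,
    monomial_sum_index]
  congr 1
  refine Finset.prod_congr rfl fun x _ => ?_
  rw [← one_pow (m (eqv x)), ← monomial_pow, ex, monomial_single_add, monomial_sum_one, pow_one]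
  rfl

lemma d9 : (∑ y, if ch y = 1 then 1 else 0) = (∑ y, if ch y = 1 then 0 else 1) ∧ ∀ e,
    (∑ y, if e ∈ Dx y then (if ch y = 1 then 1 else 0) else 0) =
    ∑ y, if e ∈ Dx y then (if ch y = 1 then 0 else 1) else 0 := by decide +kernel

end Pool.Agent.CycId

open Pool.Agent.CycId Matroid MvPolynomial in
/-- The dual of `PG(3,2)` minus a point is connected, binary and cosimple, has no restricted minor
isomorphic to the dual of the cycle matroid of `K₅`, and its cycle ideal needs degree `8`. -/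
theorem Pool.Agent.Results.MP_1f7bca_co.No.result :
    ∃ M : Matroid (Fin 14), M.E = Set.univ ∧ IsBinary M ∧ IsConn M ∧ IsSimple M✶ ∧
      (¬ ∃ N, Relation.ReflTransGen Step M N ∧ IsK5 N✶) ∧
      ∀ (K : Type) [Field K] (G : Set (MvPolynomial {D // IsCyc M D} K)),
        Ideal.span G = cycIdeal K M → ∃ g ∈ G, 8 ≤ g.totalDegree := by
  refine ⟨M0, rfl, ⟨14, ph, fun _ _ => Iff.rfl⟩, conn, cos, no_k5 cos rk ?_, fun K _ G hG => ?_⟩
  · rw [M0_E, Set.encard_univ, ENat.card_eq_coe_fintype_card, Fintype.card_fin]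
    decide
  by_contra h
  push Not at h
  have := Fintype.ofEquiv _ eqv
  have h1 : Ideal.span G = ⊥ := Ideal.span_eq_bot.2 fun g hg => by
    refine toric AA _ (psi K) g (hG.le (Ideal.subset_span hg)) fun a ha b _ hab => ?_
    have h2 := deg (fun x => a (eqv x)) (fun x => b (eqv x)) (by rw [← AA_none, ← AA_none, hab])
      ?_ fun e => by rw [← AA_some, ← AA_some, hab]
    · ext D
      simpa using congrFun h2 (eqv.symm D)
    · have h3 := (le_totalDegree ha).trans_lt (h g hg)
      rw [Finsupp.sum_fintype _ _ fun _ => rfl, ← eqv.sum_comp] at h3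
      omega
  let a := Finsupp.equivFunOnFinite.symm fun D => if ch (eqv.symm D) = 1 then 1 else 0
  let b := Finsupp.equivFunOnFinite.symm fun D => if ch (eqv.symm D) = 1 then 0 else 1
  have h2 : AA a = AA b := by
    ext (_ | e)
    · simpa only [AA_none, a, b, Finsupp.coe_equivFunOnFinite_symm, Equiv.symm_apply_apply]
        using d9.1
    · simpa only [AA_some, a, b, Finsupp.coe_equivFunOnFinite_symm, Equiv.symm_apply_apply]
        using d9.2 e
  have h3 : monomial a (1 : K) - monomial b 1 ∈ cycIdeal K M0 := by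
    rw [cycIdeal, RingHom.mem_ker, map_sub, psi, psi, h2, sub_self]
  rw [← hG, h1, Ideal.mem_bot, sub_eq_zero, monomial_left_inj one_ne_zero] at h3
  have h4 := DFunLike.congr_fun h3 (eqv 0)
  simp only [a, b, Finsupp.coe_equivFunOnFinite_symm, Equiv.symm_apply_apply] at h4
  revert h4
  decide
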